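import Pool.Agent.Helper51.FR.UPa

/-!
# Irrational fractional minimal rank: row UP, the concrete half
-/

set_option autoImplicit false

namespace Pool.Agent.Helper47.FR

open Matrix Pool.Agent.Helper81.Fmr Pool.Agent.Helper42.FR Pool.Agent.Helper51.FR

universe u

section upd
variable {Y : Type} [DecidableEq Y] {q : ℕ}

/-- change of two coordinates -/
def upd (H : Fin q × Fin q → Fin q × Fin q) (a b : Y) (y : Y → Fin q) : Y → Fin q :=
  Function.update (Function.update y a (H (y a, y b)).1) b (H (y a, y b)).2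

theorem upd_a (H : Fin q × Fin q → Fin q × Fin q) (a b : Y) (y : Y → Fin q) (h : a ≠ b) :
    upd H a b y a = (H (y a, y b)).1 := by
  rw [upd, Function.update_of_ne h, Function.update_self]

theorem upd_b (H : Fin q × Fin q → Fin q × Fin q) (a b : Y) (y : Y → Fin q) :
    upd H a b y b = (H (y a, y b)).2 := by
  rw [upd, Function.update_self]

theorem upd_c (H : Fin q × Fin q → Fin q × Fin q) (a b c : Y) (y : Y → Fin q) (h1 : c ≠ a)
    (h2 : c ≠ b) : upd H a b y c = y c := by
  rw [upd, Function.update_of_ne h2, Function.update_of_ne h1]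

theorem upd_upd (H H' : Fin q × Fin q → Fin q × Fin q) (hH : ∀ p, H' (H p) = p) (a b : Y)
    (y : Y → Fin q) (h : a ≠ b) : upd H' a b (upd H a b y) = y := by
  funext c
  by_cases h2 : c = b
  · rw [h2, upd_b, upd_a _ _ _ _ h, upd_b]
    show (H' (H (y a, y b))).2 = _
    rw [hH]
  · by_cases h1 : c = a
    · rw [h1, upd_a _ _ _ _ h, upd_a _ _ _ _ h, upd_b]
      show (H' (H (y a, y b))).1 = _
      rw [hH]
    · rw [upd_c _ _ _ _ _ h1 h2, upd_c _ _ _ _ _ h1 h2]

theorem count1 [Fintype Y] (a : Y) (k : ℕ) (hk : k ≤ q) :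
    (Finset.univ.filter fun y : Y → Fin q => (y a : ℕ) < k).card * q =
      k * q ^ Fintype.card Y := by
  have h1 : (Finset.univ.filter fun y : Y → Fin q => (y a : ℕ) < k) =
      Fintype.piFinset fun c => if c = a then (Finset.univ.filter fun i : Fin q => (i : ℕ) < k)
        else Finset.univ := by
    ext y
    rw [Finset.mem_filter, Fintype.mem_piFinset]
    constructor
    · rintro ⟨_, h⟩ c
      split_ifs with hc
      · rw [hc]
        exact Finset.mem_filter.2 ⟨Finset.mem_univ _, h⟩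
      · exact Finset.mem_univ _
    · intro h
      refine ⟨Finset.mem_univ _, ?_⟩
      have h2 := h a
      rw [if_pos rfl] at h2
      exact (Finset.mem_filter.1 h2).2
  have h2 : (Finset.univ.filter fun i : Fin q => (i : ℕ) < k).card = k := by
    have h3 : (Finset.univ.filter fun i : Fin q => (i : ℕ) < k) =
        Finset.univ.map (Fin.castLEEmb hk) := by
      ext i
      simp only [Finset.mem_filter, Finset.mem_univ, true_and, Finset.mem_map]
      constructor
      · intro h
        exact ⟨⟨i, h⟩, rfl⟩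
      · rintro ⟨j, rfl⟩
        exact j.2
    rw [h3, Finset.card_map, Finset.card_univ, Fintype.card_fin]
  have h3 : ∏ c : Y, (if c = a then q else 1) = q := by
    rw [Finset.prod_ite_eq' Finset.univ a fun _ => q, if_pos (Finset.mem_univ a)]
  have h4 : ∏ c : Y, (if c = a then k else 1) = k := by
    rw [Finset.prod_ite_eq' Finset.univ a fun _ => k, if_pos (Finset.mem_univ a)]
  have h5 : q ^ Fintype.card Y = ∏ _c : Y, q := by
    rw [Finset.prod_const, Finset.card_univ]
  rw [h1, Fintype.card_piFinset, h5]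
  have h6 : ∀ c : Y, ((if c = a then (Finset.univ.filter fun i : Fin q => (i : ℕ) < k)
      else Finset.univ : Finset (Fin q)).card) * (if c = a then q else 1) =
      (if c = a then k else 1) * q := by
    intro c
    split_ifs
    · rw [h2]
    · rw [Finset.card_univ, Fintype.card_fin, one_mul, mul_one]
  calc (∏ c : Y, ((if c = a then (Finset.univ.filter fun i : Fin q => (i : ℕ) < k)
        else Finset.univ : Finset (Fin q)).card)) * q
      = (∏ c : Y, ((if c = a then (Finset.univ.filter fun i : Fin q => (i : ℕ) < k)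
        else Finset.univ : Finset (Fin q)).card)) * ∏ c : Y, (if c = a then q else 1) := by
        rw [h3]
    _ = ∏ c : Y, ((if c = a then k else 1) * q) := by
        rw [← Finset.prod_mul_distrib]
        exact Finset.prod_congr rfl fun c _ => h6 c
    _ = k * ∏ _c : Y, q := by rw [Finset.prod_mul_distrib, h4]

theorem count2 [Fintype Y] (a b : Y) (hab : a ≠ b) (p : Fin q × Fin q) :
    (Finset.univ.filter fun y : Y → Fin q => (y a, y b) = p).card * (q * q) =
      q ^ Fintype.card Y := by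
  have h1 : (Finset.univ.filter fun y : Y → Fin q => (y a, y b) = p) =
      Fintype.piFinset fun c => if c = a then {p.1} else if c = b then {p.2}
        else Finset.univ := by
    ext y
    rw [Finset.mem_filter, Fintype.mem_piFinset]
    constructor
    · rintro ⟨_, h⟩ c
      split_ifs with hc hc'
      · rw [hc, ← h]
        exact Finset.mem_singleton_self _
      · rw [hc', ← h]
        exact Finset.mem_singleton_self _
      · exact Finset.mem_univ _
    · intro h
      refine ⟨Finset.mem_univ _, ?_⟩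
      have h2 := h a
      have h3 := h b
      rw [if_pos rfl] at h2
      rw [if_neg (Ne.symm hab), if_pos rfl] at h3
      exact Prod.ext (Finset.mem_singleton.1 h2) (Finset.mem_singleton.1 h3)
  have h3 : ∏ c : Y, (if c = a then q else 1) = q := by
    rw [Finset.prod_ite_eq' Finset.univ a fun _ => q, if_pos (Finset.mem_univ a)]
  have h4 : ∏ c : Y, (if c = b then q else 1) = q := by
    rw [Finset.prod_ite_eq' Finset.univ b fun _ => q, if_pos (Finset.mem_univ b)]
  have h5 : q ^ Fintype.card Y = ∏ _c : Y, q := by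
    rw [Finset.prod_const, Finset.card_univ]
  have h6 : q * q = ∏ c : Y, ((if c = a then q else 1) * (if c = b then q else 1)) := by
    rw [Finset.prod_mul_distrib, h3, h4]
  rw [h1, Fintype.card_piFinset, h5, h6, ← Finset.prod_mul_distrib]
  refine Finset.prod_congr rfl fun c _ => ?_
  by_cases hca : c = a
  · have hcb : c ≠ b := fun h => hab (hca.symm.trans h)
    rw [if_pos hca, if_pos hca, if_neg hcb, Finset.card_singleton]
    ring
  · by_cases hcb : c = b
    · rw [if_neg hca, if_neg hca, if_pos hcb, if_pos hcb, Finset.card_singleton]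
      ring
    · rw [if_neg hca, if_neg hca, if_neg hcb, if_neg hcb, Finset.card_univ, Fintype.card_fin]
      ring

end upd

section perm
variable {G Y : Type} [DecidableEq Y] {q : ℕ}

/-- the local permutation on the two sites -/
def HZ (s : Equiv.Perm G) (x : G → Y) (H : Equiv.Perm (Fin q × Fin q)) :
    Equiv.Perm (G × (Y → Fin q)) where
  toFun z := (z.1, if x z.1 = x (s z.1) then z.2 else upd H (x z.1) (x (s z.1)) z.2)
  invFun z := (z.1, if x z.1 = x (s z.1) then z.2 else upd H.symm (x z.1) (x (s z.1)) z.2)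
  left_inv z := by
    refine Prod.ext rfl ?_
    show (if x z.1 = x (s z.1) then _ else upd H.symm (x z.1) (x (s z.1))
      (if x z.1 = x (s z.1) then z.2 else upd H (x z.1) (x (s z.1)) z.2)) = z.2
    by_cases h : x z.1 = x (s z.1)
    · rw [if_pos h]
      exact if_pos h
    · rw [if_neg h, if_neg h]
      exact upd_upd H H.symm H.symm_apply_apply _ _ _ h
  right_inv z := by
    refine Prod.ext rfl ?_
    show (if x z.1 = x (s z.1) then _ else upd H (x z.1) (x (s z.1))
      (if x z.1 = x (s z.1) then z.2 else upd H.symm (x z.1) (x (s z.1)) z.2)) = z.2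
    by_cases h : x z.1 = x (s z.1)
    · rw [if_pos h]
      exact if_pos h
    · rw [if_neg h, if_neg h]
      exact upd_upd H.symm H H.apply_symm_apply _ _ _ h

/-- the pair of coordinates -/
def pai (s : Equiv.Perm G) (x : G → Y) (z : G × (Y → Fin q)) : Fin q × Fin q :=
  (z.2 (x z.1), z.2 (x (s z.1)))

theorem HZ_eq (s : Equiv.Perm G) (x : G → Y) (H : Equiv.Perm (Fin q × Fin q))
    (z : G × (Y → Fin q)) (h : x z.1 ≠ x (s z.1)) :
    HZ s x H z = (z.1, upd H (x z.1) (x (s z.1)) z.2) := by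
  show (z.1, if x z.1 = x (s z.1) then z.2 else upd H (x z.1) (x (s z.1)) z.2) = _
  rw [if_neg h]

theorem HZi_eq (s : Equiv.Perm G) (x : G → Y) (H : Equiv.Perm (Fin q × Fin q))
    (z : G × (Y → Fin q)) (h : x z.1 ≠ x (s z.1)) :
    (HZ s x H)⁻¹ z = (z.1, upd H.symm (x z.1) (x (s z.1)) z.2) := by
  show (z.1, if x z.1 = x (s z.1) then z.2 else upd H.symm (x z.1) (x (s z.1)) z.2) = _
  rw [if_neg h]

theorem pai_HZi (s : Equiv.Perm G) (x : G → Y) (H : Equiv.Perm (Fin q × Fin q))
    (z : G × (Y → Fin q)) (h : x z.1 ≠ x (s z.1)) :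
    ((HZ s x H)⁻¹ z).1 = z.1 ∧ pai s x ((HZ s x H)⁻¹ z) = H.symm (pai s x z) := by
  rw [HZi_eq s x H z h]
  refine ⟨rfl, ?_⟩
  exact Prod.ext (upd_a _ _ _ _ h) (upd_b _ _ _ _)

end perm

/-- row UP -/
theorem st_UP (F : Type u) [Field F] (hFO : ST_FO) (hHH : ST_HH) (hCF : ST_CF) : ST_UP F := by
  classical
  intro η hη
  obtain ⟨N, hN⟩ := exists_nat_gt (2 / η)
  have hN0 : 0 < N := by
    have h1 : (0 : ℝ) < N := lt_trans (by positivity) hN
    exact_mod_cast h1
  obtain ⟨q, k, hNq, hkq, hkk, hk5⟩ := hCF N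
  have hq0 : 0 < q := by omega
  obtain ⟨H, A, hA0, hA1, hA2, hA3, hA4, hAd, hAc⟩ := hHH q k hkq hkk
  obtain ⟨G, Y, _, _, _, _, _, s, t, x, badG, hbad, hg⟩ := hFO N hN0
  let Z : Type := G × (Y → Fin q)
  let S : Equiv.Perm Z := Equiv.prodCongr s (Equiv.refl _)
  let T : Equiv.Perm Z := Equiv.prodCongr t (Equiv.refl _)
  let HH : Equiv.Perm Z := HZ s x H
  let w : Z → F := fun z => if ((z.2 (x z.1) : Fin q) : ℕ) < k then 1 else 0
  let B1 : Finset Z := Finset.univ.filter fun z => z.1 ∈ badG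
  let B2 : Finset Z := Finset.univ.filter fun z => x z.1 ≠ x (s z.1) ∧
    pai s x z ∈ Finset.univ \ (Finset.univ.biUnion A)
  have hw : ∀ z, w z * w z = w z := by
    intro z
    simp only [w]
    split_ifs <;> simp
  have hEW : ∀ (i : Fin 5) (z : Z), x z.1 ≠ x (s z.1) →
      EW S HH w i z = if pai s x z ∈ A i then 1 else 0 := by
    have hw1 : ∀ z : Z, w z = if pai s x z ∈ A 0 then 1 else 0 := by
      intro z
      simp only [w]
      congr 1
      exact propext (hA0 (pai s x z)).symm
    have e1 : ∀ z : Z, x z.1 ≠ x (s z.1) → (HH⁻¹ z).1 = z.1 ∧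
        pai s x (HH⁻¹ z) = H.symm (pai s x z) := fun z hz => pai_HZi s x H z hz
    have c1 : ∀ z : Z, x z.1 ≠ x (s z.1) → x (HH⁻¹ z).1 ≠ x (s (HH⁻¹ z).1) := by
      intro z hz
      rw [(e1 z hz).1]
      exact hz
    intro i z hz
    have z1 := e1 z hz
    have g1 := c1 z hz
    have z2 := e1 _ g1
    have g2 := c1 _ g1
    have z3 := e1 _ g2
    have g3 := c1 _ g2
    have z4 := e1 _ g3
    have g4 := c1 _ g3
    fin_cases i
    · exact hw1 z
    · show w (HH⁻¹ z) = if pai s x z ∈ A 1 then 1 else 0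
      rw [hw1, z1.2]
      congr 1
      have := hA1 (H.symm (pai s x z))
      rw [Equiv.apply_symm_apply] at this
      exact propext this.symm
    · show w (HH⁻¹ (HH⁻¹ z)) = if pai s x z ∈ A 2 then 1 else 0
      rw [hw1, z2.2, z1.2]
      congr 1
      have h1 := hA1 (H.symm (H.symm (pai s x z)))
      have h2 := hA2 (H.symm (pai s x z))
      rw [Equiv.apply_symm_apply] at h1 h2
      exact propext (h2.trans h1).symm
    · show w (HH⁻¹ (HH⁻¹ (HH⁻¹ z))) = if pai s x z ∈ A 3 then 1 else 0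
      rw [hw1, z3.2, z2.2, z1.2]
      congr 1
      have h1 := hA1 (H.symm (H.symm (H.symm (pai s x z))))
      have h2 := hA2 (H.symm (H.symm (pai s x z)))
      have h3 := hA3 (H.symm (pai s x z))
      rw [Equiv.apply_symm_apply] at h1 h2 h3
      exact propext (h3.trans (h2.trans h1)).symm
    · show w (HH⁻¹ (HH⁻¹ (HH⁻¹ (HH⁻¹ z)))) * w (S (HH⁻¹ (HH⁻¹ (HH⁻¹ (HH⁻¹ z))))) =
        if pai s x z ∈ A 4 then 1 else 0
      have h4 := hA4 (H.symm (H.symm (H.symm (H.symm (pai s x z)))))
      simp only [Equiv.apply_symm_apply] at h4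
      have h5 : pai s x (HH⁻¹ (HH⁻¹ (HH⁻¹ (HH⁻¹ z)))) =
          H.symm (H.symm (H.symm (H.symm (pai s x z)))) := by
        rw [z4.2, z3.2, z2.2, z1.2]
      rw [← h5] at h4
      have h6 : w (S (HH⁻¹ (HH⁻¹ (HH⁻¹ (HH⁻¹ z))))) =
          if ((pai s x (HH⁻¹ (HH⁻¹ (HH⁻¹ (HH⁻¹ z))))).2 : ℕ) < k then 1 else 0 := rfl
      have h7 : w (HH⁻¹ (HH⁻¹ (HH⁻¹ (HH⁻¹ z)))) =
          if ((pai s x (HH⁻¹ (HH⁻¹ (HH⁻¹ (HH⁻¹ z))))).1 : ℕ) < k then 1 else 0 := rfl
      rw [h6, h7]
      by_cases h8 : pai s x z ∈ A 4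
      · rw [if_pos h8, if_pos (h4.1 h8).1, if_pos (h4.1 h8).2, mul_one]
      · rw [if_neg h8]
        by_cases h9 : ((pai s x (HH⁻¹ (HH⁻¹ (HH⁻¹ (HH⁻¹ z))))).1 : ℕ) < k
        · rw [if_neg (fun h10 => h8 (h4.2 ⟨h9, h10⟩)), mul_zero]
        · rw [if_neg h9, zero_mul]
  have hmain : ∀ c, c ∉ B1 ∪ B2 →
      S (T (S⁻¹ (T (S (T⁻¹ c))))) = S⁻¹ (T (S (T⁻¹ (S (T c))))) ∧
      S (T (HH c)) = HH (S (T c)) ∧ w (S (T c)) = w c ∧
      w (S⁻¹ (T c)) = w (S⁻¹ c) ∧ w (S⁻¹ (S⁻¹ (T (S (T⁻¹ c))))) = w (S⁻¹ c) ∧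
      w (S⁻¹ (HH c)) = w (S⁻¹ c) ∧
      (∀ i j, i ≠ j → EW S HH w i c * EW S HH w j c = 0) ∧
      (EW S HH w 0 c - 1) * (EW S HH w 1 c - 1) * (EW S HH w 2 c - 1) *
      (EW S HH w 3 c - 1) * (EW S HH w 4 c - 1) = 0 := by
    intro c hc
    obtain ⟨g, y⟩ := c
    have hgb : g ∉ badG := fun h => hc (Finset.mem_union_left _ (Finset.mem_filter.2
      ⟨Finset.mem_univ _, h⟩))
    obtain ⟨f1, f2, f3, f4, f5, f6, f7, f8⟩ := hg g hgb
    have hex : ∃ i, pai s x ((g, y) : Z) ∈ A i := by
      by_contra hcon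
      push Not at hcon
      apply hc
      refine Finset.mem_union_right _ (Finset.mem_filter.2 ⟨Finset.mem_univ _, f1, ?_⟩)
      rw [Finset.mem_sdiff, Finset.mem_biUnion]
      refine ⟨Finset.mem_univ _, ?_⟩
      rintro ⟨i, _, hi⟩
      exact hcon i hi
    refine ⟨?_, ?_, ?_, ?_, ?_, ?_, ?_, ?_⟩
    · exact Prod.ext f8.symm rfl
    · have e1 : HH (g, y) = (g, upd H (x g) (x (s g)) y) := HZ_eq s x H (g, y) f1
      have e2 : S (T ((g, y) : Z)) = (s (t g), y) := rfl
      have e3 : x (s (t g)) ≠ x (s (s (t g))) := by rw [f4, f5]; exact f1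
      have e4 : HH ((s (t g), y) : Z) = (s (t g), upd H (x (s (t g))) (x (s (s (t g)))) y) :=
        HZ_eq s x H (s (t g), y) e3
      rw [e1, e2, e4, f4, f5]
      rfl
    · show (if ((y (x (s (t g))) : Fin q) : ℕ) < k then (1 : F) else 0) =
        if ((y (x g) : Fin q) : ℕ) < k then 1 else 0
      rw [f4]
    · show (if ((y (x (s⁻¹ (t g))) : Fin q) : ℕ) < k then (1 : F) else 0) =
        if ((y (x (s⁻¹ g)) : Fin q) : ℕ) < k then 1 else 0
      rw [f6]
    · show (if ((y (x (s⁻¹ (s⁻¹ (t (s (t⁻¹ g)))))) : Fin q) : ℕ) < k then (1 : F) else 0) =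
        if ((y (x (s⁻¹ g)) : Fin q) : ℕ) < k then 1 else 0
      rw [f7]
    · have e1 : HH (g, y) = (g, upd H (x g) (x (s g)) y) := HZ_eq s x H (g, y) f1
      rw [e1]
      show (if ((upd H (x g) (x (s g)) y (x (s⁻¹ g)) : Fin q) : ℕ) < k then (1 : F) else 0) =
        if ((y (x (s⁻¹ g)) : Fin q) : ℕ) < k then 1 else 0
      rw [upd_c _ _ _ _ _ (Ne.symm f2) (Ne.symm f3)]
    · intro i j hij
      rw [hEW i _ f1, hEW j _ f1]
      by_cases h1 : pai s x ((g, y) : Z) ∈ A i
      · have h2 : pai s x ((g, y) : Z) ∉ A j := fun h => Finset.disjoint_left.1 (hAd i j hij) h1 h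
        rw [if_neg h2, mul_zero]
      · rw [if_neg h1, zero_mul]
    · obtain ⟨i, hi⟩ := hex
      have h1 : EW S HH w i ((g, y) : Z) - 1 = 0 := by
        rw [hEW i _ f1, if_pos hi, sub_self]
      fin_cases i
      · have h2 : EW S HH w 0 ((g, y) : Z) - 1 = 0 := h1
        rw [h2]
        ring
      · have h2 : EW S HH w 1 ((g, y) : Z) - 1 = 0 := h1
        rw [h2]
        ring
      · have h2 : EW S HH w 2 ((g, y) : Z) - 1 = 0 := h1
        rw [h2]
        ring
      · have h2 : EW S HH w 3 ((g, y) : Z) - 1 = 0 := h1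
        rw [h2]
        ring
      · have h2 : EW S HH w 4 ((g, y) : Z) - 1 = 0 := h1
        rw [h2]
        ring
  obtain ⟨z, hz1, hz2, bad', hb1, hb2, hb3⟩ := core S T HH w (B1 ∪ B2) hw hmain
  have hcardZ : Fintype.card Z = Fintype.card G * q ^ Fintype.card Y := by
    rw [Fintype.card_prod, Fintype.card_fun, Fintype.card_fin]
  -- counting
  have cB1 : B1.card * N ≤ Fintype.card Z := by
    have h1 : B1 = badG ×ˢ (Finset.univ : Finset (Y → Fin q)) := by
      refine Finset.ext fun z => ?_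
      constructor
      · intro h
        exact Finset.mem_product.2 ⟨(Finset.mem_filter.1 h).2, Finset.mem_univ _⟩
      · intro h
        exact Finset.mem_filter.2 ⟨Finset.mem_univ _, (Finset.mem_product.1 h).1⟩
    rw [h1, Finset.card_product, Finset.card_univ, Fintype.card_fun, Fintype.card_fin, hcardZ]
    calc badG.card * q ^ Fintype.card Y * N = badG.card * N * q ^ Fintype.card Y := by ring
      _ ≤ Fintype.card G * q ^ Fintype.card Y := Nat.mul_le_mul_right _ hbad
  have cB2 : B2.card * (q * q) ≤ Fintype.card Z := by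
    have h1 : B2.card = ∑ g : G, (Finset.univ.filter fun y : Y → Fin q => x g ≠ x (s g) ∧
        pai s x ((g, y) : Z) ∈ Finset.univ \ (Finset.univ.biUnion A)).card := by
      simp only [B2, Finset.card_filter]
      exact Fintype.sum_prod_type _
    rw [h1, hcardZ, Finset.sum_mul]
    have h2 : ∀ g ∈ (Finset.univ : Finset G), (Finset.univ.filter fun y : Y → Fin q =>
        x g ≠ x (s g) ∧ pai s x ((g, y) : Z) ∈ Finset.univ \ (Finset.univ.biUnion A)).card *
        (q * q) ≤ q ^ Fintype.card Y := by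
      intro g _
      by_cases h3 : x g = x (s g)
      · have h4 : (Finset.univ.filter fun y : Y → Fin q =>
            x g ≠ x (s g) ∧ pai s x ((g, y) : Z) ∈ Finset.univ \ (Finset.univ.biUnion A)) =
            ∅ := Finset.filter_eq_empty_iff.2 fun y _ h => h.1 h3
        rw [h4]
        simp
      · rcases Finset.eq_empty_or_nonempty
          (Finset.univ \ (Finset.univ.biUnion A) : Finset (Fin q × Fin q)) with h5 | ⟨p, hp⟩
        · have h4 : (Finset.univ.filter fun y : Y → Fin q =>
              x g ≠ x (s g) ∧ pai s x ((g, y) : Z) ∈ Finset.univ \ (Finset.univ.biUnion A)) =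
              ∅ := Finset.filter_eq_empty_iff.2 fun y _ h => by
                rw [h5] at h
                exact absurd h.2 (Finset.notMem_empty _)
          rw [h4]
          simp
        · rw [← count2 (x g) (x (s g)) h3 p]
          refine Nat.mul_le_mul_right _ (Finset.card_le_card fun y hy => ?_)
          have h6 := (Finset.mem_filter.1 hy).2.2
          refine Finset.mem_filter.2 ⟨Finset.mem_univ _, ?_⟩
          exact Finset.card_le_one.1 hAc _ h6 _ hp
    refine (Finset.sum_le_card_nsmul _ _ _ h2).trans ?_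
    rw [Finset.card_univ, smul_eq_mul]
  have cw : Nat.card {c : Z // w c ≠ 0} * q = k * Fintype.card Z := by
    have h1 : Nat.card {c : Z // w c ≠ 0} = ∑ g : G, (Finset.univ.filter fun y : Y → Fin q =>
        ((y (x g) : Fin q) : ℕ) < k).card := by
      rw [Nat.card_eq_fintype_card, Fintype.card_subtype]
      have h2 : (Finset.univ.filter fun c : Z => w c ≠ 0) =
          Finset.univ.filter fun c : Z => ((c.2 (x c.1) : Fin q) : ℕ) < k := by
        refine Finset.filter_congr fun c _ => ?_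
        simp only [w]
        split_ifs with h3 <;> simp [h3]
      rw [h2]
      simp only [Finset.card_filter]
      exact Fintype.sum_prod_type _
    rw [h1, hcardZ, Finset.sum_mul]
    rw [Finset.sum_congr rfl fun g _ => count1 (x g) k hkq]
    rw [Finset.sum_const, Finset.card_univ, smul_eq_mul]
    ring
  have hqR : (0 : ℝ) < q := by exact_mod_cast hq0
  have hNR : (0 : ℝ) < N := by exact_mod_cast hN0
  have hZ0 : 0 < Fintype.card Z := by
    rw [hcardZ]
    have : 0 < Fintype.card G := Fintype.card_pos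
    positivity
  refine ⟨Fintype.card Z, hZ0, z, hz1, ?_, bad', ?_, hb2, hb3⟩
  · have h1 : ((z .e).rank : ℝ) ≤ (Nat.card {c : Z // w c ≠ 0} : ℝ) := by exact_mod_cast hz2
    have h2 : (Nat.card {c : Z // w c ≠ 0} : ℝ) * q = k * (Fintype.card Z : ℝ) := by
      exact_mod_cast cw
    have h3 : (Nat.card {c : Z // w c ≠ 0} : ℝ) = (k : ℝ) / q * (Fintype.card Z : ℝ) := by
      field_simp
      linarith
    rw [h3] at h1
    refine h1.trans (mul_le_mul_of_nonneg_right hk5 (by positivity))
  · have h1 : (bad'.card : ℝ) ≤ (B1.card : ℝ) + (B2.card : ℝ) := by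
      rw [hb1]
      exact_mod_cast Finset.card_union_le B1 B2
    have h2 : (B1.card : ℝ) * N ≤ (Fintype.card Z : ℝ) := by exact_mod_cast cB1
    have h3 : (B2.card : ℝ) * (q * q) ≤ (Fintype.card Z : ℝ) := by exact_mod_cast cB2
    have h4 : (N : ℝ) ≤ (q : ℝ) * q := by
      have h5 : (N : ℝ) ≤ q := by exact_mod_cast hNq
      have h6 : (1 : ℝ) ≤ q := by exact_mod_cast hq0
      nlinarith
    have h5 : (B2.card : ℝ) * N ≤ (Fintype.card Z : ℝ) :=
      (mul_le_mul_of_nonneg_left h4 (by positivity)).trans h3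
    have h6 : ((B1.card : ℝ) + (B2.card : ℝ)) * N ≤ 2 * (Fintype.card Z : ℝ) := by linarith
    have h7 : (2 : ℝ) < N * η := by
      rw [div_lt_iff₀ hη] at hN
      exact hN
    have hZR : (0 : ℝ) < (Fintype.card Z : ℝ) := by exact_mod_cast hZ0
    refine h1.trans ?_
    by_contra hcon
    push Not at hcon
    have h8 := mul_lt_mul_of_pos_right hcon hNR
    nlinarith

end Pool.Agent.Helper47.FR
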